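import Mathlib

/-!
# Q2 of the hyperbolic analytic subspace conjecture for Siegel threefolds: definitions

`G = GSp₄`, `X = ℍ₂`, `Γ = Γ(N)` with `N ≥ 3`, `S = Γ(N) \ ℍ₂`.
-/

set_option autoImplicit false

open Matrix Topology

namespace Pool.Agent.H24.SQ2

/-! The index set of `4 × 4` matrices is `Fin 2 ⊕ Fin 2`. Symmetric complex `2 × 2` matrices `v`
are given by their coordinates `(v₁₁, v₁₂, v₂₂)` in `ℂ × ℂ × ℂ`. The half space `X` is open in this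
space, which is therefore also the tangent space `T_o X` at each `o ∈ X`. -/

/-- The matrix with coordinates `v`. -/
def mat (v : ℂ × ℂ × ℂ) : Matrix (Fin 2) (Fin 2) ℂ := !![v.1, v.2.1; v.2.1, v.2.2]

/-- The coordinates of a symmetric matrix. -/
def vec (M : Matrix (Fin 2) (Fin 2) ℂ) : ℂ × ℂ × ℂ := (M 0 0, M 0 1, M 1 1)

/-- The Siegel upper half space `X = ℍ₂`. -/
def X : Set (ℂ × ℂ × ℂ) := {τ | ((mat τ).map Complex.im).PosDef}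

/-- `Cτ + D` for `g = [[A, B], [C, D]]` with entries in `R = ℤ, ℚ, ℝ`. -/
noncomputable def den {R : Type} [CommRing R] [Algebra R ℂ]
    (g : Matrix (Fin 2 ⊕ Fin 2) (Fin 2 ⊕ Fin 2) R) (τ : ℂ × ℂ × ℂ) : Matrix (Fin 2) (Fin 2) ℂ :=
  (g.map (algebraMap R ℂ)).toBlocks₂₁ * mat τ + (g.map (algebraMap R ℂ)).toBlocks₂₂

/-- The action `g τ = (Aτ + B)(Cτ + D)⁻¹`. -/
noncomputable def act {R : Type} [CommRing R] [Algebra R ℂ]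
    (g : Matrix (Fin 2 ⊕ Fin 2) (Fin 2 ⊕ Fin 2) R) (τ : ℂ × ℂ × ℂ) : ℂ × ℂ × ℂ :=
  vec (((g.map (algebraMap R ℂ)).toBlocks₁₁ * mat τ + (g.map (algebraMap R ℂ)).toBlocks₁₂) *
    (den g τ)⁻¹)

/-- The principal congruence subgroup `Γ(N) = {γ ∈ Sp₄(ℤ) : γ ≡ 1 mod N}`. -/
def Gam (N : ℕ) : Set (Matrix (Fin 2 ⊕ Fin 2) (Fin 2 ⊕ Fin 2) ℤ) :=
  {γ | γ ∈ Matrix.symplecticGroup (Fin 2) ℤ ∧ ∀ i j, (N : ℤ) ∣ (γ - 1) i j}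

/-- `f = ∑ a(n, r, m) exp (2πi (n τ₁₁ + r τ₁₂ + m τ₂₂) / N)` on `X`, the sum being over the
`(n, r, m) ∈ ℤ³` for which `[[n, r/2], [r/2, m]]` is positive semidefinite. -/
def Fourier (N : ℕ) (f : ℂ × ℂ × ℂ → ℂ) (a : ℤ × ℤ × ℤ → ℂ) : Prop :=
  (∀ n r m : ℤ, a (n, r, m) ≠ 0 → 0 ≤ n ∧ 0 ≤ m ∧ r ^ 2 ≤ 4 * n * m) ∧
    ∀ τ ∈ X, HasSum (fun T : ℤ × ℤ × ℤ => a T * Complex.exp
      (2 * Real.pi * Complex.I * (T.1 * τ.1 + T.2.1 * τ.2.1 + T.2.2 * τ.2.2) / N)) (f τ)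

/-- `f ∈ M_k(Γ(N), ℚbar)`: `f` is a Siegel modular form of degree `2`, weight `k` and level
`Γ(N)` (holomorphic on `X` and at all cusps), with algebraic Fourier coefficients at `∞`. -/
structure Form (N k : ℕ) (f : ℂ × ℂ × ℂ → ℂ) : Prop where
  holo : DifferentiableOn ℂ f X
  modular : ∀ γ ∈ Gam N, ∀ τ ∈ X, f (act γ τ) = (den γ τ).det ^ k * f τ
  cusps : ∀ δ ∈ Matrix.symplecticGroup (Fin 2) ℤ, ∃ a : ℤ × ℤ × ℤ → ℂ,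
    Fourier N (fun τ => ((den δ τ).det ^ k)⁻¹ * f (act δ τ)) a
  alg : ∃ a : ℤ × ℤ × ℤ → ℂ, (∀ T, IsAlgebraic ℚ (a T)) ∧ Fourier N f a

/-- `[z] ∈ S(ℚbar)`, for the canonical model `S_ℚbar`, an open subvariety of
`Proj ⨁ₖ M_k(Γ(N), ℚbar)`: every local function `f / g` takes an algebraic value at `z`. -/
def AlgPt (N : ℕ) (z : ℂ × ℂ × ℂ) : Prop :=
  ∀ (k : ℕ) (f g : ℂ × ℂ × ℂ → ℂ), Form N k f → Form N k g → g z ≠ 0 → IsAlgebraic ℚ (f z / g z)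

/-- The arithmetic structure `ψ⁻¹(T_[o] S_ℚbar) ⊆ T_o X`: the `v` such that `d(f/g)_o(v)` is
algebraic for every local function `f / g` at `o`. -/
def Arith (N : ℕ) (o : ℂ × ℂ × ℂ) : Set (ℂ × ℂ × ℂ) :=
  {v | ∀ (k : ℕ) (f g : ℂ × ℂ × ℂ → ℂ), Form N k f → Form N k g → g o ≠ 0 →
    IsAlgebraic ℚ (fderiv ℂ (fun τ => f τ / g τ) o v)}

/-- The Harish-Chandra embedding `X → T_o X`, `τ ↦ (τ - o)(τ - ō)⁻¹(o - ō)`, which has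
differential `1` at `o`. -/
noncomputable def hc (o τ : ℂ × ℂ × ℂ) : ℂ × ℂ × ℂ :=
  vec ((mat τ - mat o) * (mat τ - (mat o).map (starRingEnd ℂ))⁻¹ *
    (mat o - (mat o).map (starRingEnd ℂ)))

/-- `GSp₄(ℂ)`. -/
def GSp : Set (GL (Fin 2 ⊕ Fin 2) ℂ) :=
  {g | ∃ ν : ℂ, g.1 * Matrix.J (Fin 2) ℂ * g.1ᵀ = ν • Matrix.J (Fin 2) ℂ}

/-- `H` is (the group of complex points of) an algebraic subgroup of `GSp₄` over `ℚ`: it is cut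
out in `GL₄(ℂ)` by polynomials over `ℚ`, and is contained in `GSp₄(ℂ)`. -/
def QGroup (H : Subgroup (GL (Fin 2 ⊕ Fin 2) ℂ)) : Prop :=
  (∀ g ∈ H, g ∈ GSp) ∧ ∃ E : Set (MvPolynomial ((Fin 2 ⊕ Fin 2) × (Fin 2 ⊕ Fin 2)) ℚ),
    ∀ g, g ∈ H ↔ ∀ p ∈ E, MvPolynomial.aeval (fun ij => g.1 ij.1 ij.2) p = 0

/-- The real points `H(ℝ)`. -/
def RealPts (H : Subgroup (GL (Fin 2 ⊕ Fin 2) ℂ)) :
    Set (Matrix (Fin 2 ⊕ Fin 2) (Fin 2 ⊕ Fin 2) ℝ) :=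
  {M | ∃ g ∈ H, g.1 = M.map (algebraMap ℝ ℂ)}

/-- The complex structure `J_τ` of `ℝ⁴` attached to `τ = x + iy`, with
`J_τ (τ; 1) = i (τ; 1)`. -/
noncomputable def Jst (τ : ℂ × ℂ × ℂ) : Matrix (Fin 2 ⊕ Fin 2) (Fin 2 ⊕ Fin 2) ℝ :=
  let x := (mat τ).map Complex.re
  let y := (mat τ).map Complex.im
  Matrix.fromBlocks (x * y⁻¹) (-(y + x * y⁻¹ * x)) y⁻¹ (-(y⁻¹ * x))

/-- `h_τ(𝕊) ⊆ H_ℝ`, where `h_τ : 𝕊(ℝ) = ℂˣ → GSp₄(ℝ)`, `a + bi ↦ a + b J_τ`. -/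
def Through (τ : ℂ × ℂ × ℂ) (H : Subgroup (GL (Fin 2 ⊕ Fin 2) ℂ)) : Prop :=
  ∀ s : ℂ, s ≠ 0 → s.re • 1 + s.im • Jst τ ∈ RealPts H

/-- The Mumford-Tate group: the smallest algebraic subgroup `H` over `ℚ` with
`h_τ(𝕊) ⊆ H_ℝ`. -/
def MT (τ : ℂ × ℂ × ℂ) : Subgroup (GL (Fin 2 ⊕ Fin 2) ℂ) := sInf {H | QGroup H ∧ Through τ H}

/-- `T` is a maximal torus of `GSp₄`: a conjugate of the diagonal torus. -/
def MaxTorus (T : Subgroup (GL (Fin 2 ⊕ Fin 2) ℂ)) : Prop :=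
  ∃ g ∈ GSp, ∀ t, t ∈ T ↔ t ∈ GSp ∧ (g⁻¹ * t * g).1.IsDiag

/-- `Y = q · H(ℝ)⁺ · x` for an algebraic subgroup `H ⊆ GSp₄` over `ℚ`, a point `x ∈ X` with
`h_x(𝕊) ⊆ H_ℝ` and `q ∈ GSp₄(ℚ)⁺`. The images in `S` of these `Y` include all Shimura
subvarieties of `S`. -/
def Shimura (Y : Set (ℂ × ℂ × ℂ)) : Prop :=
  ∃ H, QGroup H ∧ ∃ x ∈ X, Through x H ∧ ∃ q : Matrix (Fin 2 ⊕ Fin 2) (Fin 2 ⊕ Fin 2) ℚ,
    (∃ ν : ℚ, 0 < ν ∧ q * Matrix.J (Fin 2) ℚ * Matrix.transpose q = ν • Matrix.J (Fin 2) ℚ) ∧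
    Y = {τ | ∃ h ∈ connectedComponentIn (RealPts H) 1, τ = act q (act h x)}

/-- `D · Y`. -/
def Orb (D : Set (Matrix (Fin 2 ⊕ Fin 2) (Fin 2 ⊕ Fin 2) ℤ)) (Y : Set (ℂ × ℂ × ℂ)) :
    Set (ℂ × ℂ × ℂ) := {τ | ∃ γ ∈ D, ∃ y ∈ Y, τ = act γ y}

/-- The Zariski tangent space at `o` of the germ of `W` at `o`. -/
def Tan (W : Set (ℂ × ℂ × ℂ)) (o : ℂ × ℂ × ℂ) : Set (ℂ × ℂ × ℂ) :=
  {v | ∀ f : ℂ × ℂ × ℂ → ℂ, AnalyticAt ℂ f o → (∀ᶠ τ in 𝓝 o, τ ∈ W → f τ = 0) →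
    fderiv ℂ f o v = 0}

/-- The assertion of Q2 for `S = Γ(N) \ ℍ₂`. For the Shimura subvariety `S'` with
`u⁻¹(S') = Γ(N) · Y`, the tangent space of `S'` at `[o]` is allowed to be the one of any union
`D · Y`, `D ⊆ Γ(N)`, of components of `u⁻¹(S')` which contains `o`: with `D = Γ(N)` it is the
Zariski tangent space of `S'`, with `D = {γ}` that of one branch. -/
def Q2 (N : ℕ) : Prop :=
  ∀ o ∈ X, ∀ z ∈ X, MaxTorus (MT o) → AlgPt N z →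
    ∀ V : Submodule ℂ (ℂ × ℂ × ℂ), Submodule.span ℂ (V ∩ Arith N o) = V → hc o z ∈ V →
      ∃ Y, Shimura Y ∧ z ∈ Orb (Gam N) Y ∧
        ∃ D ⊆ Gam N, o ∈ Orb D Y ∧ hc o z ∈ Tan (Orb D Y) o ∧ Tan (Orb D Y) o ⊆ V

end Pool.Agent.H24.SQ2
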