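import Pool.Agent.H20.HASC.Reduce4
import Pool.Agent.H20.HASC.MTorus
import Pool.Agent.H24.SQ2.Defs

/-!
# Q2 of the hyperbolic analytic subspace conjecture fails for Siegel threefolds: proof
-/

set_option autoImplicit false

open Matrix Topology

namespace Pool.Agent.H24.SQ2

/-! ### Proof -/

open Pool.Agent.H20.HASC in
lemma den_int (γ : Matrix (Fin 2 ⊕ Fin 2) (Fin 2 ⊕ Fin 2) ℤ) (τ : ℂ × ℂ × ℂ) :
    den γ τ = denom (intMat γ) τ := by
  have h : γ.map (algebraMap ℤ ℂ) = cplxMat (intMat γ) := by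
    ext i j; simp
  rw [den, h]; rfl

open Pool.Agent.H20.HASC in
lemma act_int (γ : Matrix (Fin 2 ⊕ Fin 2) (Fin 2 ⊕ Fin 2) ℤ) (τ : ℂ × ℂ × ℂ) :
    act γ τ = Pool.Agent.H20.HASC.act (intMat γ) τ := by
  have h : γ.map (algebraMap ℤ ℂ) = cplxMat (intMat γ) := by
    ext i j; simp
  rw [act, den_int, h]; rfl

open Pool.Agent.H20.HASC in
lemma act_rat (q : Matrix (Fin 2 ⊕ Fin 2) (Fin 2 ⊕ Fin 2) ℚ) (τ : ℂ × ℂ × ℂ) :
    act q τ = Pool.Agent.H20.HASC.act (ratMat q) τ := by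
  have h : q.map (algebraMap ℚ ℂ) = cplxMat (ratMat q) := by
    ext i j; simp
  rw [act, den, h]; rfl

lemma act_real (h : Matrix (Fin 2 ⊕ Fin 2) (Fin 2 ⊕ Fin 2) ℝ) (τ : ℂ × ℂ × ℂ) :
    act h τ = Pool.Agent.H20.HASC.act h τ := rfl

open Pool.Agent.H20.HASC in
lemma Form.toOld {N k : ℕ} {f : ℂ × ℂ × ℂ → ℂ} (h : Form N k f) : IsQbarForm N k f := by
  refine ⟨⟨h.holo, ?_, ?_⟩, h.alg⟩
  · intro γ hγ τ hτ
    rw [← act_int, ← den_int]
    exact h.modular γ hγ τ hτ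
  · intro δ hδ
    obtain ⟨a, ha⟩ := h.cusps δ hδ
    refine ⟨a, ?_⟩
    simp only [← act_int, ← den_int]
    exact ha

open Pool.Agent.H20.HASC in
lemma MT_old (τ : ℂ × ℂ × ℂ) : MT τ = Pool.Agent.H20.HASC.MT τ := by
  rw [MT, Pool.Agent.H20.HASC.MT]
  congr 1
  ext H
  constructor
  · rintro ⟨⟨h1, h2⟩, h3⟩
    exact ⟨h1, h2, h3⟩
  · rintro ⟨h1, h2, h3⟩
    exact ⟨⟨h1, h2⟩, h3⟩

open Pool.Agent.H20.HASC in
theorem main (N : ℕ) (hN : 3 ≤ N) : ¬ Q2 N := by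
  intro h
  have : NeZero N := ⟨by omega⟩
  have hT : MaxTorus (MT oPt) := by
    rw [MT_old]
    exact isMaximalTorus_MT
  have hz : AlgPt N zPt := fun k f g hf hg hg0 => isQbarPoint_z k f g hf.toOld hg.toOld hg0
  have hV : Submodule.span ℂ ((V11 : Set (ℂ × ℂ × ℂ)) ∩ Arith N oPt) = V11 := by
    apply le_antisymm
    · rw [Submodule.span_le]
      exact fun v hv => hv.1
    · have h1 : Submodule.span ℂ ((V11 : Set (ℂ × ℂ × ℂ)) ∩ arithStructure N oPt) = V11 :=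
        isRationalFor_V
      calc V11 = Submodule.span ℂ ((V11 : Set (ℂ × ℂ × ℂ)) ∩ arithStructure N oPt) := h1.symm
        _ ≤ _ := by
          apply Submodule.span_mono
          rintro v ⟨hv1, hv2⟩
          exact ⟨hv1, fun k f g hf hg hg0 => hv2 k f g hf.toOld hg.toOld hg0⟩
  obtain ⟨Y, ⟨H, ⟨hH, hQ⟩, x, hx, hF, q, ⟨ν, hν, hq⟩, hY⟩, -, D, hD, ho, hz1, hz2⟩ :=
    h oPt oPt_mem zPt zPt_mem hT hz V11 hV hc_mem
  have hq' : IsGSpPos (ratMat q) := by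
    refine ⟨ν, by exact_mod_cast hν, ?_⟩
    have e1 : (q * Matrix.J (Fin 2) ℚ * qᵀ).map (Rat.castHom ℝ) =
        ratMat q * Matrix.J (Fin 2) ℝ * (ratMat q)ᵀ := by
      rw [Matrix.map_mul, Matrix.map_mul, Matrix.map_J]; rfl
    have e2 := Matrix.map_J (l := Fin 2) (R := ℚ) (Rat.castHom ℝ)
    rw [← e1, hq, ← e2]
    ext i j
    simp
  have hZ : Orb D Y = {τ | ∃ γ ∈ D, ∃ h ∈ realComponent H,
      τ = Pool.Agent.H20.HASC.act (intMat γ)
        (Pool.Agent.H20.HASC.act (ratMat q) (Pool.Agent.H20.HASC.act h x))} := by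
    ext τ
    constructor
    · rintro ⟨γ, hγ, y, hy, rfl⟩
      rw [hY] at hy
      obtain ⟨h, hh, rfl⟩ := hy
      exact ⟨γ, hγ, h, hh, by rw [act_int, act_rat, act_real]⟩
    · rintro ⟨γ, hγ, h, hh, rfl⟩
      refine ⟨γ, hγ, act q (act h x), ?_, by rw [act_int, act_rat, act_real]⟩
      rw [hY]
      exact ⟨h, hh, rfl⟩
  exact no_shimura_gen fiberControl hD hH hQ hx hF hq' hZ ho hz1 hz2

end Pool.Agent.H24.SQ2
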